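import Pool.Agent.MP_f6d20c_nt.Mg.Main

/-! Carlet's conjecture on the sum-freedom of the inverse function, stated for an arbitrary
field with `2 ^ n` elements, Mathlib's affine subspaces and the power map `x ^ (2 ^ n - 2)`. -/

namespace Pool.Agent.Results.MP_f6d20c_nt.SumFree

open Pool.Agent.MP_f6d20c_nt

lemma pow_eq_inv {F : Type*} [Field F] [Fintype F] {n : ℕ} (hn : 2 ≤ n)
    (hF : Fintype.card F = 2 ^ n) (x : F) : x ^ (2 ^ n - 2) = x⁻¹ := by
  have h4 : 2 ^ 2 ≤ 2 ^ n := Nat.pow_le_pow_right (by norm_num) hn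
  by_cases hx : x = 0
  · rw [hx, inv_zero, zero_pow (by omega)]
  · have h1 := FiniteField.pow_card_sub_one_eq_one x hx
    rw [hF, show 2 ^ n - 1 = (2 ^ n - 2) + 1 by omega, pow_succ] at h1
    exact eq_inv_of_mul_eq_one_left h1

lemma transport {K L : Type*} [Field K] [Field L] [Finite L] [Algebra (ZMod 2) K]
    [Algebra (ZMod 2) L] (e : K ≃ₐ[ZMod 2] L) {k : ℕ}
    (h : ∀ V : Submodule (ZMod 2) K, Module.finrank (ZMod 2) V = k →
      ∀ a : K, ∑ᶠ x ∈ (V : Set K), (a + x)⁻¹ ≠ 0) :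
    ∀ V : Submodule (ZMod 2) L, Module.finrank (ZMod 2) V = k →
      ∀ a : L, ∑ᶠ x ∈ (V : Set L), (a + x)⁻¹ ≠ 0 := by
  intro V hV a hs
  refine h (V.map e.symm.toLinearEquiv.toLinearMap) ?_ (e.symm a) ?_
  · rw [LinearEquiv.finrank_map_eq]; exact hV
  · rw [Submodule.map_coe, finsum_mem_image (by exact e.symm.injective.injOn)]
    have h1 := (e.symm.toAddEquiv).map_finsum_mem (fun x => (a + x)⁻¹) (Set.toFinite (V : Set L))
    rw [hs, map_zero] at h1
    simpa using h1.symm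

lemma lin_iff {F : Type*} [Field F] [Fintype F] [Algebra (ZMod 2) F] {n k : ℕ} (h3 : 3 ≤ n)
    (hodd : Odd n) (hF : Fintype.card F = 2 ^ n) (hk : 1 ≤ k) (hkn : k ≤ n - 1) :
    (∀ V : Submodule (ZMod 2) F, Module.finrank (ZMod 2) V = k →
      ∀ a : F, ∑ᶠ x ∈ (V : Set F), (a + x)⁻¹ ≠ 0) ↔
      (k = 1 ∨ k = 2 ∨ k = n - 2 ∨ k = n - 1) := by
  have hn0 : n ≠ 0 := by omega
  let _ : Fintype (GaloisField 2 n) := Fintype.ofFinite _
  have hcard : Fintype.card (GaloisField 2 n) = 2 ^ n := by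
    rw [← Nat.card_eq_fintype_card, GaloisField.card 2 n hn0]
  obtain ⟨χ, hχ⟩ := exists_isChi (F := GaloisField 2 n) (by rwa [GaloisField.finrank 2 hn0])
  rw [← hχ.Z_eq_zero hcard h3 hodd hk hkn, ← sumFree_iff]
  let e : F ≃ₐ[ZMod 2] GaloisField 2 n :=
    GaloisField.algEquivGaloisFieldOfFintype 2 n hF
  exact ⟨transport e, transport e.symm⟩

lemma sum_affine {F : Type*} [Field F] [Fintype F] [Algebra (ZMod 2) F]
    (V : Submodule (ZMod 2) F) (a : F) (s : Finset F)
    (hs : (s : Set F) = (AffineSubspace.mk' a V : AffineSubspace (ZMod 2) F)) :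
    ∑ x ∈ s, x⁻¹ = ∑ᶠ x ∈ (V : Set F), (a + x)⁻¹ := by
  have h : (s : Set F) = (fun x => a + x) '' (V : Set F) := by
    rw [hs]
    ext y
    simp only [SetLike.mem_coe, AffineSubspace.mem_mk', vsub_eq_sub, Set.mem_image]
    constructor
    · intro hy; exact ⟨y - a, hy, by ring⟩
    · rintro ⟨x, hx, rfl⟩; simpa using hx
  rw [← finsum_mem_coe_finset, h, finsum_mem_image (add_right_injective a).injOn]

/-- For odd `n ≥ 3` and any field `F` with `2 ^ n` elements, the set of `k` in `[1, n - 1]` such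
that the sum of `x ^ (2 ^ n - 2)` over every `k`-dimensional affine subspace is nonzero is
`{1, 2, n - 2, n - 1}`. -/
theorem result (n : ℕ) (h3 : 3 ≤ n) (hodd : Odd n) (F : Type*) [Field F] [Fintype F]
    [Algebra (ZMod 2) F] (hF : Fintype.card F = 2 ^ n) :
    {k : ℕ | 1 ≤ k ∧ k ≤ n - 1 ∧
      ∀ (A : AffineSubspace (ZMod 2) F) (s : Finset F), (s : Set F) = (A : Set F) →
        s.Nonempty → Module.finrank (ZMod 2) A.direction = k →
          ∑ x ∈ s, x ^ (2 ^ n - 2) ≠ 0} = {1, 2, n - 2, n - 1} := by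
  classical
  have hp : ∀ x : F, x ^ (2 ^ n - 2) = x⁻¹ := pow_eq_inv (by omega) hF
  simp only [hp]
  ext k
  simp only [Set.mem_ofPred_eq, Set.mem_insert_iff, Set.mem_singleton_iff]
  constructor
  · rintro ⟨hk, hkn, h⟩
    refine (lin_iff h3 hodd hF hk hkn).1 fun V hV a => ?_
    have hs : (((Finset.univ.filter fun x => x ∈ AffineSubspace.mk' a V) : Finset F) : Set F) =
        (AffineSubspace.mk' a V : AffineSubspace (ZMod 2) F) := by
      ext y; simp
    rw [← sum_affine V a _ hs]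
    refine h _ _ hs ⟨a, ?_⟩ (by rw [AffineSubspace.direction_mk']; exact hV)
    simp
  · intro h
    have hk : 1 ≤ k := by omega
    have hkn : k ≤ n - 1 := by omega
    refine ⟨hk, hkn, fun A s hs hne hA => ?_⟩
    obtain ⟨a, ha⟩ := hne
    have haA : a ∈ A := by
      have : a ∈ (s : Set F) := ha
      rwa [hs] at this
    rw [sum_affine A.direction a s (by rw [AffineSubspace.mk'_eq haA]; exact hs)]
    exact (lin_iff h3 hodd hF hk hkn).2 h _ hA a

end Pool.Agent.Results.MP_f6d20c_nt.SumFree
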